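import Mathlib

/-!
# Piercing partitions of a square grid into proper boxes

A partition of `[n]²` into proper boxes each of whose axis-parallel lines meets at least `k` parts
has at least `4 (k - 1)` parts, and this is attained for `n ≥ 2 (k - 1)`.

Proof of the lower bound. Let `R i` and `C j` be the sets of the parts meeting the line
`{i} × [n]`, respectively `[n] × {j}`; then `|R i ∩ C j| = 1`. Let `v` be the value of the matrix
game with the pay-off `[b ∈ R i]` (so that some random line `R` contains each part with probability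
at most `v`, and some weights `l` satisfy `l (R i) ≥ v` for all `i`), and let `w` be the value of
the corresponding game for `C`. Comparing the two optimal weights one finds `v + w ≤ 1`. If `x`, `y`
are the probabilities of the parts for the two random lines, then `∑ x y = 1`, `∑ x ≥ k`,
`∑ y ≥ k`, and `∑ (v - x) (w - y) ≥ 0` gives the bound.
-/

set_option autoImplicit false

namespace Pool.Agent.Results.MP_21d1af_co.BoxPiercing

open Finset

/-- The minimax theorem for a finite matrix game. -/
theorem minimax {ι β : Type*} [Fintype ι] [Fintype β] [Nonempty ι] [Nonempty β]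
    (M : ι → β → ℝ) :
    ∃ (v : ℝ) (p : ι → ℝ) (l : β → ℝ), (∀ i, 0 ≤ p i) ∧ ∑ i, p i = 1 ∧ (∀ b, 0 ≤ l b) ∧
      ∑ b, l b = 1 ∧ (∀ b, ∑ i, p i * M i b ≤ v) ∧ (∀ i, v ≤ ∑ b, l b * M i b) := by
  classical
  set K : Set (ι → ℝ) := stdSimplex ℝ ι with hKdef
  have hK : IsCompact K := isCompact_stdSimplex ℝ ι
  have hKc : Convex ℝ K := convex_stdSimplex ℝ ι
  have hne : K.Nonempty := by
    obtain ⟨i0⟩ := ‹Nonempty ι›
    exact ⟨Pi.single i0 1, single_mem_stdSimplex ℝ i0⟩
  set h : β → (ι → ℝ) → ℝ := fun b p => ∑ i, p i * M i b with hh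
  have hcont : ∀ b, Continuous (h b) := fun b =>
    continuous_finsetSum _ fun i _ => (continuous_apply i).mul continuous_const
  set g : (ι → ℝ) → ℝ := fun p => Finset.univ.sup' Finset.univ_nonempty fun b => h b p with hg
  have hgc : ContinuousOn g K :=
    ContinuousOn.finset_sup'_apply (Finset.univ_nonempty (α := β)) (f := h) (t := K)
      (fun b _ => (hcont b).continuousOn)
  obtain ⟨p0, hp0, hmin⟩ := hK.exists_isMinOn hne hgc
  set v := g p0 with hv
  have hup : ∀ b, h b p0 ≤ v := fun b => Finset.le_sup' (fun b => h b p0) (Finset.mem_univ b)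
  have hlow : ∀ p ∈ K, ∃ b, v ≤ h b p := by
    intro p hp
    obtain ⟨b, -, hb⟩ := Finset.exists_mem_eq_sup' (Finset.univ_nonempty (α := β))
      (fun b => h b p)
    exact ⟨b, hb ▸ hmin hp⟩
  set C : Set (β → ℝ) := {x | ∃ p ∈ K, ∀ b, h b p < x b} with hC
  have hCo : IsOpen C := by
    have : C = ⋃ p ∈ K, {x : β → ℝ | ∀ b, h b p < x b} := by
      ext x
      simp [hC]
    rw [this]
    refine isOpen_biUnion fun p _ => ?_
    have h2 : {x : β → ℝ | ∀ b, h b p < x b} = ⋂ b, {x : β → ℝ | h b p < x b} := by
      ext x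
      simp
    rw [h2]
    exact isOpen_iInter_of_finite fun i => isOpen_lt continuous_const (continuous_apply i)
  have hCc : Convex ℝ C := by
    rintro x ⟨p, hp, hx⟩ y ⟨p', hp', hy⟩ a b ha hb hab
    refine ⟨a • p + b • p', hKc hp hp' ha hb hab, fun i => ?_⟩
    have h1 : h i (a • p + b • p') = a * h i p + b * h i p' := by
      simp only [hh, Pi.add_apply, Pi.smul_apply, smul_eq_mul]
      rw [Finset.mul_sum, Finset.mul_sum, ← Finset.sum_add_distrib]
      exact Finset.sum_congr rfl fun i _ => by ring
    rw [h1]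
    simp only [Pi.add_apply, Pi.smul_apply, smul_eq_mul]
    rcases lt_or_eq_of_le ha with ha' | ha'
    · nlinarith [hx i, hy i, mul_lt_mul_of_pos_left (hx i) ha',
        mul_le_mul_of_nonneg_left (hy i).le hb]
    · have hb1 : b = 1 := by linarith
      subst hb1
      rw [← ha']
      linarith [hy i]
  have hp : (fun _ : β => v) ∉ C := by
    rintro ⟨p, hpK, hlt⟩
    obtain ⟨b, hb⟩ := hlow p hpK
    exact absurd (hlt b) (not_lt.2 hb)
  obtain ⟨f, hf⟩ := geometric_hahn_banach_open_point hCc hCo hp
  set w : β → ℝ := fun b => - f (Pi.single b 1) with hw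
  have hfw : ∀ x : β → ℝ, f x = - ∑ b, w b * x b := by
    intro x
    have h1 : x = ∑ b, x b • (Pi.single b (1 : ℝ) : β → ℝ) := by
      ext j
      simp [Finset.sum_apply, Pi.single_apply]
    conv_lhs => rw [h1]
    rw [map_sum, ← Finset.sum_neg_distrib]
    refine Finset.sum_congr rfl fun i _ => ?_
    rw [map_smul, smul_eq_mul, hw]
    ring
  have hlt : ∀ x ∈ C, v * ∑ b, w b < ∑ b, w b * x b := by
    intro x hx
    have h1 := hf x hx
    rw [hfw, hfw] at h1
    have h2 : ∑ b, w b * v = v * ∑ b, w b := by rw [← Finset.sum_mul, mul_comm]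
    linarith
  have hw0 : ∀ b, 0 ≤ w b := by
    intro b
    by_contra hneg
    push Not at hneg
    have hmem : ∀ t : ℝ, 0 ≤ t →
        (fun j => h j p0 + 1 + t * (Pi.single b (1 : ℝ) : β → ℝ) j) ∈ C := by
      intro t ht
      refine ⟨p0, hp0, fun j => ?_⟩
      have : 0 ≤ t * (Pi.single b (1 : ℝ) : β → ℝ) j := by
        apply mul_nonneg ht
        by_cases hj : j = b
        · subst hj; simp
        · simp [hj]
      linarith
    have hval : ∀ t : ℝ, ∑ j, w j * (h j p0 + 1 + t * (Pi.single b (1 : ℝ) : β → ℝ) j) =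
        ∑ j, w j * (h j p0 + 1) + t * w b := by
      intro t
      have h3 : ∀ j, w j * (h j p0 + 1 + t * (Pi.single b (1 : ℝ) : β → ℝ) j) =
          w j * (h j p0 + 1) + t * (w j * (Pi.single b (1 : ℝ) : β → ℝ) j) := fun j => by ring
      rw [Finset.sum_congr rfl fun j _ => h3 j, Finset.sum_add_distrib, ← Finset.mul_sum]
      congr 2
      simp [Pi.single_apply]
    set c := v * ∑ b, w b with hc
    set d := ∑ j, w j * (h j p0 + 1) with hd
    have ht := hlt _ (hmem (max 0 ((d - c) / (- w b))) (le_max_left _ _))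
    rw [hval] at ht
    have h4 : (d - c) / (- w b) ≤ max 0 ((d - c) / (- w b)) := le_max_right _ _
    rw [div_le_iff₀ (by linarith)] at h4
    nlinarith
  have hW : 0 < ∑ b, w b := by
    rcases (Finset.sum_nonneg fun i _ => hw0 i : 0 ≤ ∑ b, w b).lt_or_eq with h1 | h1
    · exact h1
    · exfalso
      have h2 := (Finset.sum_eq_zero_iff_of_nonneg fun i _ => hw0 i).1 h1.symm
      have h3 := hlt _ (⟨p0, hp0, fun b => by linarith⟩ : (fun b => h b p0 + 1) ∈ C)
      rw [← h1, Finset.sum_eq_zero (fun i hi => by rw [h2 i hi, zero_mul]), mul_zero] at h3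
      exact lt_irrefl _ h3
  set W := ∑ b, w b with hWdef
  refine ⟨v, p0, fun b => w b / W, hp0.1, hp0.2, fun b => div_nonneg (hw0 b) hW.le, ?_, hup, ?_⟩
  · rw [← Finset.sum_div, ← hWdef, div_self hW.ne']
  · intro i
    have h5 : ∑ b, w b / W * M i b = (∑ b, w b * M i b) / W := by
      rw [Finset.sum_div]
      exact Finset.sum_congr rfl fun i _ => by ring
    rw [h5, le_div_iff₀ hW]
    apply le_of_forall_pos_le_add
    intro e he
    have h6 : ∀ b, h b (Pi.single i 1) = M i b := by
      intro b
      simp [hh, Pi.single_apply]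
    have h7 := hlt _ (⟨Pi.single i 1, single_mem_stdSimplex ℝ i, fun b => by
      rw [h6 b]; have : 0 < e / W := div_pos he hW
      linarith⟩ : (fun b => M i b + e / W) ∈ C)
    have h8 : ∑ b, w b * (M i b + e / W) = ∑ b, w b * M i b + e := by
      have h9 : ∀ b, w b * (M i b + e / W) = w b * M i b + w b * (e / W) := fun b => by ring
      rw [Finset.sum_congr rfl fun b _ => h9 b, Finset.sum_add_distrib, ← Finset.sum_mul,
        ← hWdef]
      field_simp
    rw [h8] at h7
    exact h7.le

/-- The indicator of membership. -/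
noncomputable def ind {β : Type*} [DecidableEq β] (b : β) (S : Finset β) : ℝ := if b ∈ S then 1 else 0

lemma ind_nonneg {β : Type*} [DecidableEq β] (b : β) (S : Finset β) : 0 ≤ ind b S := by
  unfold ind
  split_ifs <;> norm_num

lemma ind_le_one {β : Type*} [DecidableEq β] (b : β) (S : Finset β) : ind b S ≤ 1 := by
  unfold ind
  split_ifs <;> norm_num

lemma sum_ind {β : Type*} [Fintype β] [DecidableEq β] (S : Finset β) :
    ∑ b, ind b S = (S.card : ℝ) := by
  unfold ind
  simp

/-- The two values have sum at most one: the case in which the first one is large. -/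
theorem half {ι κ β : Type*} [Fintype ι] [Fintype β] [DecidableEq β]
    (R : ι → Finset β) (C : κ → Finset β) (h1 : ∀ i j, (R i ∩ C j).card = 1)
    (hR : ∀ b, ∃ i, b ∈ R i) (hC : ∀ b, ∃ j, b ∈ C j) (pR : ∀ b, ∃ i, b ∉ R i)
    {v w : ℝ} {p : ι → ℝ} {l mu : β → ℝ} (hp : ∀ i, 0 ≤ p i) (hps : ∑ i, p i = 1)
    (hl : ∀ b, 0 ≤ l b) (hls : ∑ b, l b = 1) (hx : ∀ b, ∑ i, p i * ind b (R i) ≤ v)
    (hv : ∀ i, v ≤ ∑ b, l b * ind b (R i)) (hmu : ∀ b, 0 ≤ mu b) (hmus : ∑ b, mu b = 1)
    (hw : ∀ j, w ≤ ∑ b, mu b * ind b (C j)) (hv2 : 1 / 2 < v) : v + w ≤ 1 := by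
  classical
  -- complementary slackness
  have hslack : ∀ b, l b ≠ 0 → ∑ i, p i * ind b (R i) = v := by
    have h2 : v ≤ ∑ b, l b * ∑ i, p i * ind b (R i) := by
      have h3 : ∑ b, l b * ∑ i, p i * ind b (R i) = ∑ i, p i * ∑ b, l b * ind b (R i) := by
        simp only [Finset.mul_sum]
        rw [Finset.sum_comm]
        exact Finset.sum_congr rfl fun i _ => Finset.sum_congr rfl fun b _ => by ring
      rw [h3]
      calc v = ∑ i, p i * v := by rw [← Finset.sum_mul, hps, one_mul]
        _ ≤ _ := Finset.sum_le_sum fun i _ => mul_le_mul_of_nonneg_left (hv i) (hp i)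
    have h4 : ∑ b, l b * (v - ∑ i, p i * ind b (R i)) = 0 := by
      apply le_antisymm
      · have h5 : ∑ b, l b * (v - ∑ i, p i * ind b (R i)) =
            (∑ b, l b) * v - ∑ b, l b * ∑ i, p i * ind b (R i) := by
          rw [Finset.sum_mul, ← Finset.sum_sub_distrib]
          exact Finset.sum_congr rfl fun b _ => by ring
        rw [h5, hls]
        linarith
      · exact Finset.sum_nonneg fun b _ => mul_nonneg (hl b) (by linarith [hx b])
    intro b hb
    have h6 := (Finset.sum_eq_zero_iff_of_nonneg
      (fun b _ => mul_nonneg (hl b) (by linarith [hx b]))).1 h4 b (Finset.mem_univ b)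
    rcases mul_eq_zero.1 h6 with h7 | h7
    · exact absurd h7 hb
    · linarith
  -- two parts in the support lie on a common line
  have hpair : ∀ b b', l b ≠ 0 → l b' ≠ 0 → ∃ i, b ∈ R i ∧ b' ∈ R i := by
    intro b b' hb hb'
    by_contra hno
    push Not at hno
    have h2 : ∀ i, p i * ind b (R i) + p i * ind b' (R i) ≤ p i := by
      intro i
      have h3 : ind b (R i) + ind b' (R i) ≤ 1 := by
        by_cases hbi : b ∈ R i
        · have : ind b' (R i) = 0 := if_neg (hno i hbi)
          linarith [ind_le_one b (R i)]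
        · have : ind b (R i) = 0 := if_neg hbi
          linarith [ind_le_one b' (R i)]
      nlinarith [hp i]
    have h4 := Finset.sum_le_sum fun i (_ : i ∈ (Finset.univ : Finset ι)) => h2 i
    rw [Finset.sum_add_distrib, hslack b hb, hslack b' hb', hps] at h4
    linarith
  have hexcl : ∀ b b', b ≠ b' → (∃ i, b ∈ R i ∧ b' ∈ R i) → ¬ ∃ j, b ∈ C j ∧ b' ∈ C j := by
    rintro b b' hne ⟨i, hbi, hbi'⟩ ⟨j, hbj, hbj'⟩
    have h2 : ({b, b'} : Finset β) ⊆ R i ∩ C j := by
      intro a ha
      rw [Finset.mem_insert, Finset.mem_singleton] at ha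
      rcases ha with rfl | rfl
      · exact Finset.mem_inter.2 ⟨hbi, hbj⟩
      · exact Finset.mem_inter.2 ⟨hbi', hbj'⟩
    have h3 := Finset.card_le_card h2
    rw [h1, Finset.card_pair hne] at h3
    omega
  set ro : β → β → ℝ := fun b b' => if ∃ i, b ∈ R i ∧ b' ∈ R i then 1 else 0 with hro
  set co : β → β → ℝ := fun b b' => if ∃ j, b ∈ C j ∧ b' ∈ C j then 1 else 0 with hco
  set T : Finset β := Finset.univ.filter fun b => l b = 0 with hT
  set tau : ℝ := ∑ b ∈ T, mu b with htau
  have hro_low : ∀ b', v ≤ ∑ b, l b * ro b b' := by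
    intro b'
    obtain ⟨i, hi⟩ := hR b'
    refine (hv i).trans (Finset.sum_le_sum fun b _ => mul_le_mul_of_nonneg_left ?_ (hl b))
    by_cases hb : b ∈ R i
    · have : ro b b' = 1 := if_pos ⟨i, hb, hi⟩
      rw [this]
      exact ind_le_one _ _
    · have : ind b (R i) = 0 := if_neg hb
      rw [this]
      simp only [hro]
      split_ifs <;> norm_num
  have hco_low : ∀ b, l b ≠ 0 → w - mu b ≤ ∑ b' ∈ T, mu b' * co b b' := by
    intro b hb
    obtain ⟨j, hj⟩ := hC b
    have h2 := hw j
    have h3 : ∑ b', mu b' * ind b' (C j) =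
        ∑ b' ∈ T, mu b' * ind b' (C j) + ∑ b' ∈ Tᶜ, mu b' * ind b' (C j) :=
      (Finset.sum_add_sum_compl T _).symm
    have h4 : ∑ b' ∈ Tᶜ, mu b' * ind b' (C j) ≤ mu b := by
      have hbT : b ∈ Tᶜ := by simp [hT, hb]
      rw [← Finset.add_sum_erase _ _ hbT]
      have h5 : ∑ b' ∈ Tᶜ.erase b, mu b' * ind b' (C j) = 0 := by
        refine Finset.sum_eq_zero fun b' hb' => ?_
        rw [Finset.mem_erase] at hb'
        have hlb' : l b' ≠ 0 := by
          have := hb'.2
          simpa [hT] using this
        have h6 : b' ∉ C j := fun hmem =>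
          hexcl b b' (Ne.symm hb'.1) (hpair b b' hb hlb') ⟨j, hj, hmem⟩
        have : ind b' (C j) = 0 := if_neg h6
        rw [this, mul_zero]
      rw [h5, add_zero]
      nlinarith [hmu b, ind_le_one b (C j), ind_nonneg b (C j)]
    have h7 : ∑ b' ∈ T, mu b' * ind b' (C j) ≤ ∑ b' ∈ T, mu b' * co b b' := by
      refine Finset.sum_le_sum fun b' _ => mul_le_mul_of_nonneg_left ?_ (hmu b')
      by_cases hb' : b' ∈ C j
      · have : co b b' = 1 := if_pos ⟨j, hj, hb'⟩
        rw [this]
        exact ind_le_one _ _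
      · have : ind b' (C j) = 0 := if_neg hb'
        rw [this]
        simp only [hco]
        split_ifs <;> norm_num
    linarith
  -- the double sum
  have hA : tau * v ≤ ∑ b, ∑ b' ∈ T, l b * mu b' * ro b b' := by
    rw [Finset.sum_comm, htau, Finset.sum_mul]
    refine Finset.sum_le_sum fun b' _ => ?_
    have h2 : ∑ b, l b * mu b' * ro b b' = mu b' * ∑ b, l b * ro b b' := by
      rw [Finset.mul_sum]
      exact Finset.sum_congr rfl fun b _ => by ring
    rw [h2]
    exact mul_le_mul_of_nonneg_left (hro_low b') (hmu b')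
  have hB : w - ∑ b, l b * mu b ≤ ∑ b, ∑ b' ∈ T, l b * mu b' * co b b' := by
    have h2 : w - ∑ b, l b * mu b = ∑ b, l b * (w - mu b) := by
      have h3 : ∀ b, l b * (w - mu b) = l b * w - l b * mu b := fun b => by ring
      rw [Finset.sum_congr rfl fun b _ => h3 b, Finset.sum_sub_distrib, ← Finset.sum_mul, hls,
        one_mul]
    rw [h2]
    refine Finset.sum_le_sum fun b _ => ?_
    have h4 : ∑ b' ∈ T, l b * mu b' * co b b' = l b * ∑ b' ∈ T, mu b' * co b b' := by
      rw [Finset.mul_sum]
      exact Finset.sum_congr rfl fun b' _ => by ring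
    rw [h4]
    by_cases hb : l b = 0
    · rw [hb, zero_mul, zero_mul]
    · exact mul_le_mul_of_nonneg_left (hco_low b hb) (hl b)
  have hAB : ∑ b, ∑ b' ∈ T, l b * mu b' * ro b b' + ∑ b, ∑ b' ∈ T, l b * mu b' * co b b' ≤
      tau := by
    rw [← Finset.sum_add_distrib]
    have h2 : ∀ b, ∑ b' ∈ T, l b * mu b' * ro b b' + ∑ b' ∈ T, l b * mu b' * co b b' ≤
        l b * tau := by
      intro b
      rw [← Finset.sum_add_distrib, htau, Finset.mul_sum]
      refine Finset.sum_le_sum fun b' hb' => ?_
      have hb'0 : l b' = 0 := by simpa [hT] using hb'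
      by_cases hb : l b = 0
      · rw [hb]
        simp
      · have hne : b ≠ b' := fun h => hb (h ▸ hb'0)
        have h3 : ro b b' + co b b' ≤ 1 := by
          by_cases hr : ∃ i, b ∈ R i ∧ b' ∈ R i
          · have e1 : ro b b' = 1 := if_pos hr
            have e2 : co b b' = 0 := if_neg (hexcl b b' hne hr)
            linarith
          · have e1 : ro b b' = 0 := if_neg hr
            have e2 : co b b' ≤ 1 := by
              simp only [hco]
              split_ifs <;> norm_num
            linarith
        have h4 : 0 ≤ l b * mu b' := mul_nonneg (hl b) (hmu b')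
        nlinarith
    calc _ ≤ ∑ b, l b * tau := Finset.sum_le_sum fun b _ => h2 b
      _ = tau := by rw [← Finset.sum_mul, hls, one_mul]
  have hlv : ∀ b, l b ≤ 1 - v := by
    intro b
    obtain ⟨i, hi⟩ := pR b
    have h2 := hv i
    have h3 : ∑ b', l b' * ind b' (R i) + l b ≤ 1 := by
      rw [← hls, ← Finset.add_sum_erase Finset.univ _ (Finset.mem_univ b),
        ← Finset.add_sum_erase Finset.univ l (Finset.mem_univ b)]
      have : ind b (R i) = 0 := if_neg hi
      rw [this, mul_zero, zero_add, add_comm]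
      have h4 : ∑ b' ∈ Finset.univ.erase b, l b' * ind b' (R i) ≤
          ∑ b' ∈ Finset.univ.erase b, l b' :=
        Finset.sum_le_sum fun b' _ => by
          nlinarith [hl b', ind_le_one b' (R i)]
      linarith
    linarith
  have hlm : ∑ b, l b * mu b ≤ (1 - v) * (1 - tau) := by
    have h2 : ∑ b, l b * mu b = ∑ b ∈ T, l b * mu b + ∑ b ∈ Tᶜ, l b * mu b :=
      (Finset.sum_add_sum_compl T _).symm
    have h3 : ∑ b ∈ T, l b * mu b = 0 := by
      refine Finset.sum_eq_zero fun b hb => ?_
      have hb0 : l b = 0 := by simpa [hT] using hb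
      rw [hb0, zero_mul]
    have h4 : ∑ b ∈ Tᶜ, l b * mu b ≤ (1 - v) * ∑ b ∈ Tᶜ, mu b := by
      rw [Finset.mul_sum]
      exact Finset.sum_le_sum fun b _ => mul_le_mul_of_nonneg_right (hlv b) (hmu b)
    have h5 : ∑ b ∈ T, mu b + ∑ b ∈ Tᶜ, mu b = 1 := by
      rw [Finset.sum_add_sum_compl, hmus]
    rw [h2, h3, zero_add]
    have h6 : ∑ b ∈ Tᶜ, mu b = 1 - tau := by linarith
    rw [← h6]
    exact h4
  nlinarith

/-- The arithmetic at the end. -/
lemma arith {m v w X Y : ℝ} (hv0 : 0 < v) (hw0 : 0 < w) (hvw : v + w ≤ 1)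
    (hX : 1 ≤ X) (hY : 1 ≤ Y) (hYv : 1 ≤ v * Y)
    (hm : 0 ≤ m * (v * w) - w * X - v * Y + 1) :
    √(X - 1) + √(Y - 1) ≤ √m := by
  have hv1 : v < 1 := by linarith
  have hw' : 0 < 1 - v := by linarith
  have h1 : (X - 1) / v + (Y - 1) / (1 - v) ≤ m := by
    have h2 : X / v + (1 / w) * (Y - 1 / v) ≤ m := by
      have h3 : X / v + (1 / w) * (Y - 1 / v) = (w * X + v * Y - 1) / (v * w) := by
        field_simp
        ring
      rw [h3, div_le_iff₀ (mul_pos hv0 hw0)]
      linarith
    have h4 : 0 ≤ Y - 1 / v := by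
      rw [sub_nonneg, div_le_iff₀ hv0]
      linarith
    have h5 : 1 / (1 - v) ≤ 1 / w := one_div_le_one_div_of_le hw0 (by linarith)
    have h6 : X / v + (1 / (1 - v)) * (Y - 1 / v) = (X - 1) / v + (Y - 1) / (1 - v) := by
      field_simp
      ring
    rw [← h6]
    nlinarith [mul_le_mul_of_nonneg_right h5 h4]
  set a := √(X - 1) with ha
  set b := √(Y - 1) with hb
  have ha2 : a ^ 2 = X - 1 := Real.sq_sqrt (by linarith)
  have hb2 : b ^ 2 = Y - 1 := Real.sq_sqrt (by linarith)
  have h7 : (a + b) ^ 2 ≤ m := by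
    refine le_trans ?_ h1
    rw [← ha2, ← hb2]
    have h8 : a ^ 2 / v + b ^ 2 / (1 - v) - (a + b) ^ 2 =
        (a * (1 - v) - b * v) ^ 2 / (v * (1 - v)) := by
      field_simp
      ring
    have h9 : 0 ≤ (a * (1 - v) - b * v) ^ 2 / (v * (1 - v)) := by positivity
    linarith
  exact Real.le_sqrt_of_sq_le h7

/-- Two families of sets, each member of the first one meeting each member of the second one in
exactly one point. -/
theorem key {ι κ β : Type*} [Fintype ι] [Fintype κ] [Fintype β] [Nonempty ι] [Nonempty κ]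
    [DecidableEq β] (R : ι → Finset β) (C : κ → Finset β) (h1 : ∀ i j, (R i ∩ C j).card = 1)
    (hR : ∀ b, ∃ i, b ∈ R i) (hC : ∀ b, ∃ j, b ∈ C j) {r c : ℕ} (hr : 2 ≤ r) (hc : 2 ≤ c)
    (hRr : ∀ i, r ≤ (R i).card) (hCc : ∀ j, c ≤ (C j).card) :
    √((r : ℝ) - 1) + √((c : ℝ) - 1) ≤ √(Fintype.card β : ℝ) := by
  classical
  have pR : ∀ b, ∃ i, b ∉ R i := by
    intro b
    by_contra hall
    push Not at hall
    obtain ⟨j, hj⟩ := hC b
    have h2 : C j ⊆ {b} := by
      intro b' hb'
      obtain ⟨i, hi⟩ := hR b'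
      have h3 := Finset.card_le_one.1 (h1 i j).le b' (Finset.mem_inter.2 ⟨hi, hb'⟩) b
        (Finset.mem_inter.2 ⟨hall i, hj⟩)
      exact Finset.mem_singleton.2 h3
    have h4 := Finset.card_le_card h2
    have h5 := hCc j
    rw [Finset.card_singleton] at h4
    omega
  have pC : ∀ b, ∃ j, b ∉ C j := by
    intro b
    by_contra hall
    push Not at hall
    obtain ⟨i, hi⟩ := hR b
    have h2 : R i ⊆ {b} := by
      intro b' hb'
      obtain ⟨j, hj⟩ := hC b'
      have h3 := Finset.card_le_one.1 (h1 i j).le b' (Finset.mem_inter.2 ⟨hb', hj⟩) b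
        (Finset.mem_inter.2 ⟨hi, hall j⟩)
      exact Finset.mem_singleton.2 h3
    have h4 := Finset.card_le_card h2
    have h5 := hRr i
    rw [Finset.card_singleton] at h4
    omega
  have h1' : ∀ j i, (C j ∩ R i).card = 1 := fun j i => by rw [Finset.inter_comm]; exact h1 i j
  have hβ : Nonempty β := by
    obtain ⟨i⟩ := ‹Nonempty ι›
    have h2 := hRr i
    obtain ⟨b, -⟩ := Finset.card_pos.1 (show 0 < (R i).card by omega)
    exact ⟨b⟩
  obtain ⟨v, p, l, hp, hps, hl, hls, hx, hv⟩ := minimax (fun i b => ind b (R i))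
  obtain ⟨w, q, mu, hq, hqs, hmu, hmus, hy, hw⟩ := minimax (fun j b => ind b (C j))
  have hvw : v + w ≤ 1 := by
    by_cases hv2 : 1 / 2 < v
    · exact half R C h1 hR hC pR hp hps hl hls hx hv hmu hmus hw hv2
    · by_cases hw2 : 1 / 2 < w
      · have := half C R h1' hC hR pC hq hqs hmu hmus hy hw hl hls hv hw2
        linarith
      · linarith
  set x : β → ℝ := fun b => ∑ i, p i * ind b (R i) with hxdef
  set y : β → ℝ := fun b => ∑ j, q j * ind b (C j) with hydef
  have hind : ∀ i j, ∑ b, ind b (R i) * ind b (C j) = 1 := by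
    intro i j
    have h2 : ∀ b, ind b (R i) * ind b (C j) = ind b (R i ∩ C j) := by
      intro b
      unfold ind
      by_cases hb : b ∈ R i <;> by_cases hb' : b ∈ C j <;> simp [hb, hb']
    rw [Finset.sum_congr rfl fun b _ => h2 b, sum_ind, h1]
    norm_num
  have hxy : ∑ b, x b * y b = 1 := by
    have h2 : ∀ b, x b * y b = ∑ i, ∑ j, p i * q j * (ind b (R i) * ind b (C j)) := by
      intro b
      simp only [hxdef, hydef]
      rw [Finset.sum_mul_sum]
      exact Finset.sum_congr rfl fun i _ => Finset.sum_congr rfl fun j _ => by ring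
    rw [Finset.sum_congr rfl fun b _ => h2 b, Finset.sum_comm]
    have h3 : ∀ i, ∑ b, ∑ j, p i * q j * (ind b (R i) * ind b (C j)) = p i := by
      intro i
      rw [Finset.sum_comm]
      have h4 : ∀ j, ∑ b, p i * q j * (ind b (R i) * ind b (C j)) = p i * q j := by
        intro j
        rw [← Finset.mul_sum, hind, mul_one]
      rw [Finset.sum_congr rfl fun j _ => h4 j, ← Finset.mul_sum, hqs, mul_one]
    rw [Finset.sum_congr rfl fun i _ => h3 i, hps]
  have hXs : ∑ b, x b = ∑ i, p i * ((R i).card : ℝ) := by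
    simp only [hxdef]
    rw [Finset.sum_comm]
    exact Finset.sum_congr rfl fun i _ => by rw [← Finset.mul_sum, sum_ind]
  have hYs : ∑ b, y b = ∑ j, q j * ((C j).card : ℝ) := by
    simp only [hydef]
    rw [Finset.sum_comm]
    exact Finset.sum_congr rfl fun i _ => by rw [← Finset.mul_sum, sum_ind]
  set X := ∑ b, x b with hXdef
  set Y := ∑ b, y b with hYdef
  have hXr : (r : ℝ) ≤ X := by
    rw [hXs]
    calc (r : ℝ) = ∑ i, p i * (r : ℝ) := by rw [← Finset.sum_mul, hps, one_mul]
      _ ≤ _ := Finset.sum_le_sum fun i _ =>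
        mul_le_mul_of_nonneg_left (by exact_mod_cast hRr i) (hp i)
  have hYc : (c : ℝ) ≤ Y := by
    rw [hYs]
    calc (c : ℝ) = ∑ i, q i * (c : ℝ) := by rw [← Finset.sum_mul, hqs, one_mul]
      _ ≤ _ := Finset.sum_le_sum fun i _ =>
        mul_le_mul_of_nonneg_left (by exact_mod_cast hCc i) (hq i)
  have hr1 : (2 : ℝ) ≤ r := by exact_mod_cast hr
  have hc1 : (2 : ℝ) ≤ c := by exact_mod_cast hc
  have hvY : 1 ≤ v * Y := by
    rw [hYs, Finset.mul_sum]
    have h2 : ∀ j, q j ≤ v * (q j * ((C j).card : ℝ)) := by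
      intro j
      have h3 : (1 : ℝ) ≤ v * ((C j).card : ℝ) := by
        have h4 : ∑ b, x b * ind b (C j) = 1 := by
          have h5 : ∀ b, x b * ind b (C j) = ∑ i, p i * (ind b (R i) * ind b (C j)) := by
            intro b
            simp only [hxdef]
            rw [Finset.sum_mul]
            exact Finset.sum_congr rfl fun i _ => by ring
          rw [Finset.sum_congr rfl fun b _ => h5 b, Finset.sum_comm]
          have h6 : ∀ i, ∑ b, p i * (ind b (R i) * ind b (C j)) = p i := by
            intro i
            rw [← Finset.mul_sum, hind, mul_one]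
          rw [Finset.sum_congr rfl fun i _ => h6 i, hps]
        rw [← h4, ← sum_ind (C j), Finset.mul_sum]
        exact Finset.sum_le_sum fun b _ => mul_le_mul_of_nonneg_right (hx b) (ind_nonneg _ _)
      nlinarith [hq j]
    calc (1 : ℝ) = ∑ j, q j := hqs.symm
      _ ≤ _ := Finset.sum_le_sum fun j _ => h2 j
  have hwX : 1 ≤ w * X := by
    rw [hXs, Finset.mul_sum]
    have h2 : ∀ i, p i ≤ w * (p i * ((R i).card : ℝ)) := by
      intro i
      have h3 : (1 : ℝ) ≤ w * ((R i).card : ℝ) := by
        have h4 : ∑ b, y b * ind b (R i) = 1 := by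
          have h5 : ∀ b, y b * ind b (R i) = ∑ j, q j * (ind b (R i) * ind b (C j)) := by
            intro b
            simp only [hydef]
            rw [Finset.sum_mul]
            exact Finset.sum_congr rfl fun i _ => by ring
          rw [Finset.sum_congr rfl fun b _ => h5 b, Finset.sum_comm]
          have h6 : ∀ j, ∑ b, q j * (ind b (R i) * ind b (C j)) = q j := by
            intro j
            rw [← Finset.mul_sum, hind, mul_one]
          rw [Finset.sum_congr rfl fun i _ => h6 i, hqs]
        rw [← h4, ← sum_ind (R i), Finset.mul_sum]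
        exact Finset.sum_le_sum fun b _ => mul_le_mul_of_nonneg_right (hy b) (ind_nonneg _ _)
      nlinarith [hp i]
    calc (1 : ℝ) = ∑ i, p i := hps.symm
      _ ≤ _ := Finset.sum_le_sum fun i _ => h2 i
  have hv0 : 0 < v := by
    by_contra hneg
    push Not at hneg
    nlinarith
  have hw0 : 0 < w := by
    by_contra hneg
    push Not at hneg
    nlinarith
  have hm : 0 ≤ (Fintype.card β : ℝ) * (v * w) - w * X - v * Y + 1 := by
    have h2 : 0 ≤ ∑ b, (v - x b) * (w - y b) := Finset.sum_nonneg fun b _ =>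
      mul_nonneg (by linarith [hx b]) (by linarith [hy b])
    have h3 : ∑ b, (v - x b) * (w - y b) =
        (Fintype.card β : ℝ) * (v * w) - w * X - v * Y + 1 := by
      have h4 : ∀ b, (v - x b) * (w - y b) = v * w - w * x b - v * y b + x b * y b :=
        fun b => by ring
      have e1 : ∑ b, w * x b = w * X := by rw [hXdef, Finset.mul_sum]
      have e2 : ∑ b, v * y b = v * Y := by rw [hYdef, Finset.mul_sum]
      rw [Finset.sum_congr rfl fun b _ => h4 b, Finset.sum_add_distrib, Finset.sum_sub_distrib,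
        Finset.sum_sub_distrib, e1, e2, hxy, Finset.sum_const, Finset.card_univ, nsmul_eq_mul]
    rw [← h3]
    exact h2
  have h9 := arith hv0 hw0 hvw (by linarith) (by linarith) hvY hm
  have h10 : √((r : ℝ) - 1) ≤ √(X - 1) := Real.sqrt_le_sqrt (by linarith)
  have h11 : √((c : ℝ) - 1) ≤ √(Y - 1) := Real.sqrt_le_sqrt (by linarith)
  linarith

/-- A proper box of the grid `[n]²`: a product of two nonempty sets other than `[n]`. -/
def IsProperBox (n : ℕ) (B : Finset (Fin n × Fin n)) : Prop :=
  ∃ B₁ B₂ : Finset (Fin n), B₁.Nonempty ∧ B₂.Nonempty ∧ B₁ ≠ Finset.univ ∧ B₂ ≠ Finset.univ ∧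
    B = B₁ ×ˢ B₂

/-- `B` is (the list of the parts of) a partition of `[n]²` into proper boxes such that each line
`{i} × [n]` meets at least `r` parts and each line `[n] × {j}` meets at least `c` parts. -/
structure IsPiercingPartition (n r c m : ℕ) (B : Fin m → Finset (Fin n × Fin n)) : Prop where
  proper : ∀ a, IsProperBox n (B a)
  partition : ∀ x : Fin n × Fin n, ∃! a, x ∈ B a
  column : ∀ i : Fin n, r ≤ (Finset.univ.filter fun a => ∃ j, (i, j) ∈ B a).card
  row : ∀ j : Fin n, c ≤ (Finset.univ.filter fun a => ∃ i, (i, j) ∈ B a).card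

/-- `p_box(n, 2, k)`: the least number of parts of a partition of `[n]²` into proper boxes with the
`k`-piercing property. -/
noncomputable def pBox (n k : ℕ) : ℕ :=
  sInf {m : ℕ | ∃ B : Fin m → Finset (Fin n × Fin n), IsPiercingPartition n k k m B}

theorem lower {n r c m : ℕ} (hn : 0 < n) (hr : 2 ≤ r) (hc : 2 ≤ c)
    {B : Fin m → Finset (Fin n × Fin n)} (hB : IsPiercingPartition n r c m B) :
    √((r : ℝ) - 1) + √((c : ℝ) - 1) ≤ √(m : ℝ) := by
  classical
  have : Nonempty (Fin n) := ⟨⟨0, hn⟩⟩
  have h := key (ι := Fin n) (κ := Fin n) (β := Fin m)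
    (fun i => Finset.univ.filter fun a => ∃ j, (i, j) ∈ B a)
    (fun j => Finset.univ.filter fun a => ∃ i, (i, j) ∈ B a) ?_ ?_ ?_ hr hc hB.column hB.row
  · simpa using h
  · intro i j
    obtain ⟨a, ha, hau⟩ := hB.partition (i, j)
    rw [Finset.card_eq_one]
    refine ⟨a, ?_⟩
    ext a'
    simp only [Finset.mem_inter, Finset.mem_filter, Finset.mem_univ, true_and,
      Finset.mem_singleton]
    constructor
    · rintro ⟨⟨j', hj'⟩, ⟨i', hi'⟩⟩
      apply hau
      obtain ⟨B₁, B₂, -, -, -, -, hprod⟩ := hB.proper a'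
      simp only [hprod, Finset.mem_product] at hj' hi' ⊢
      exact ⟨hj'.1, hi'.2⟩
    · rintro rfl
      exact ⟨⟨j, ha⟩, ⟨i, ha⟩⟩
  · intro a
    obtain ⟨B₁, B₂, ⟨i, hi⟩, ⟨j, hj⟩, -, -, hprod⟩ := hB.proper a
    refine ⟨i, ?_⟩
    simp only [Finset.mem_filter, Finset.mem_univ, true_and]
    exact ⟨j, by rw [hprod]; exact Finset.mem_product.2 ⟨hi, hj⟩⟩
  · intro a
    obtain ⟨B₁, B₂, ⟨i, hi⟩, ⟨j, hj⟩, -, -, hprod⟩ := hB.proper a
    refine ⟨j, ?_⟩
    simp only [Finset.mem_filter, Finset.mem_univ, true_and]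
    exact ⟨i, by rw [hprod]; exact Finset.mem_product.2 ⟨hi, hj⟩⟩

theorem lower_k {n k m : ℕ} (hn : 0 < n) (hk : 2 ≤ k)
    {B : Fin m → Finset (Fin n × Fin n)} (hB : IsPiercingPartition n k k m B) :
    4 * (k - 1) ≤ m := by
  have h := lower hn hk hk hB
  have hk1 : (2 : ℝ) ≤ k := by exact_mod_cast hk
  have h2 : √(m : ℝ) ^ 2 = m := Real.sq_sqrt (Nat.cast_nonneg m)
  have h3 : √((k : ℝ) - 1) ^ 2 = (k : ℝ) - 1 := Real.sq_sqrt (by linarith)
  have h4 : 0 ≤ √((k : ℝ) - 1) := Real.sqrt_nonneg _
  have h5 : 4 * ((k : ℝ) - 1) ≤ m := by nlinarith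
  have h6 : ((4 * (k - 1) : ℕ) : ℝ) ≤ (m : ℝ) := by
    rw [Nat.cast_mul, Nat.cast_sub (by omega)]
    push_cast
    linarith
  exact_mod_cast h6

/-! ### The upper bound -/

/-- The colour classes of a colouring of the grid. -/
lemma classes {n r c : ℕ} {σ : Type} [Fintype σ] [DecidableEq σ] (col : Fin n × Fin n → σ)
    (hprop : ∀ s, IsProperBox n (Finset.univ.filter fun x => col x = s))
    (hcol : ∀ i : Fin n, ∃ S : Finset σ, r ≤ S.card ∧ ∀ s ∈ S, ∃ j, col (i, j) = s)
    (hrow : ∀ j : Fin n, ∃ S : Finset σ, c ≤ S.card ∧ ∀ s ∈ S, ∃ i, col (i, j) = s) :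
    ∃ B : Fin (Fintype.card σ) → Finset (Fin n × Fin n),
      IsPiercingPartition n r c (Fintype.card σ) B := by
  classical
  set e := Fintype.equivFin σ
  refine ⟨fun a => Finset.univ.filter fun x => col x = e.symm a, ?_, ?_, ?_, ?_⟩
  · exact fun a => hprop _
  · intro x
    refine ⟨e (col x), ?_, ?_⟩
    · simp
    · intro a ha
      simp only [Finset.mem_filter, Finset.mem_univ, true_and] at ha
      rw [ha]
      simp
  · intro i
    obtain ⟨S, hS, hS2⟩ := hcol i
    refine hS.trans ?_
    rw [← Finset.card_map e.toEmbedding]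
    refine Finset.card_le_card fun a ha => ?_
    rw [Finset.mem_map] at ha
    obtain ⟨s, hs, rfl⟩ := ha
    obtain ⟨j, hj⟩ := hS2 s hs
    simp only [Finset.mem_filter, Finset.mem_univ, true_and]
    exact ⟨j, by simp [hj]⟩
  · intro j
    obtain ⟨S, hS, hS2⟩ := hrow j
    refine hS.trans ?_
    rw [← Finset.card_map e.toEmbedding]
    refine Finset.card_le_card fun a ha => ?_
    rw [Finset.mem_map] at ha
    obtain ⟨s, hs, rfl⟩ := ha
    obtain ⟨i, hi⟩ := hS2 s hs
    simp only [Finset.mem_filter, Finset.mem_univ, true_and]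
    exact ⟨i, by simp [hi]⟩

theorem upper {n t : ℕ} (ht : 1 ≤ t) (hn : 2 * t ≤ n) :
    ∃ B : Fin (4 * t) → Finset (Fin n × Fin n),
      IsPiercingPartition n (t + 1) (t + 1) (4 * t) B := by
  classical
  set cl : Fin n → Fin (2 * t) := fun i => ⟨min i.val (2 * t - 1), by omega⟩ with hcl
  have hclt : ∀ i : Fin n, ((cl i).val < t ↔ i.val < t) := by
    intro i
    simp only [hcl]
    omega
  set up : Fin (2 * t) → Fin n := fun a => ⟨a.val, by omega⟩ with hup
  have hclup : ∀ a, cl (up a) = a := by
    intro a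
    ext
    simp only [hcl, hup]
    omega
  have hupt : ∀ a, ((up a).val < t ↔ a.val < t) := fun a => by simp [hup]
  set col : Fin n × Fin n → Fin (2 * t) ⊕ Fin (2 * t) := fun x =>
    if (x.1.val < t ↔ x.2.val < t) then Sum.inl (cl x.1) else Sum.inr (cl x.2) with hcolor
  have hcol1 : ∀ x, (x.1.val < t ↔ x.2.val < t) → col x = Sum.inl (cl x.1) := fun x hx => if_pos hx
  have hcol2 : ∀ x, ¬ (x.1.val < t ↔ x.2.val < t) → col x = Sum.inr (cl x.2) := fun x hx =>
    if_neg hx
  set z0 : Fin n := ⟨0, by omega⟩ with hz0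
  set z1 : Fin n := ⟨t, by omega⟩ with hz1
  have hcard : Fintype.card (Fin (2 * t) ⊕ Fin (2 * t)) = 4 * t := by
    simp only [Fintype.card_sum, Fintype.card_fin]
    omega
  have hex : ∀ P : Prop, ∃ j : Fin n, (j.val < t ↔ P) := by
    intro P
    by_cases hP : P
    · exact ⟨z0, by simp only [hz0, hP, iff_true]; omega⟩
    · exact ⟨z1, by simp [hz1, hP]⟩
  have hmain := classes (r := t + 1) (c := t + 1) col ?_ ?_ ?_
  · rw [hcard] at hmain
    exact hmain
  · -- the classes are proper boxes
    rintro (a | a)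
    · refine ⟨Finset.univ.filter fun i => cl i = a,
        Finset.univ.filter fun j => (a.val < t ↔ j.val < t), ?_, ?_, ?_, ?_, ?_⟩
      · exact ⟨up a, by simp [hclup]⟩
      · obtain ⟨j, hj⟩ := hex (a.val < t)
        exact ⟨j, by simp only [Finset.mem_filter, Finset.mem_univ, true_and]; exact hj.symm⟩
      · intro h
        have h0 : cl z0 = a := by
          have := Finset.mem_univ z0
          rw [← h] at this
          simpa using this
        have h2 : cl z1 = a := by
          have := Finset.mem_univ z1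
          rw [← h] at this
          simpa using this
        have h3 := (hclt z0).2 (by simp only [hz0]; omega)
        have h4 := (hclt z1).1 (by rw [h2, ← h0]; exact h3)
        simp only [hz1] at h4
        omega
      · intro h
        obtain ⟨j, hj⟩ := hex (¬ a.val < t)
        have h0 : (a.val < t ↔ j.val < t) := by
          have := Finset.mem_univ j
          rw [← h] at this
          simpa using this
        tauto
      · ext x
        simp only [Finset.mem_filter, Finset.mem_univ, true_and, Finset.mem_product]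
        constructor
        · intro hx
          by_cases hc : (x.1.val < t ↔ x.2.val < t)
          · rw [hcol1 x hc, Sum.inl.injEq] at hx
            refine ⟨hx, ?_⟩
            rw [← hx, hclt]
            exact hc
          · rw [hcol2 x hc] at hx
            exact absurd hx (by simp)
        · rintro ⟨hx1, hx2⟩
          rw [hcol1 x (by rw [← hx2, ← hx1, hclt]), hx1]
    · refine ⟨Finset.univ.filter fun i => ¬ (i.val < t ↔ a.val < t),
        Finset.univ.filter fun j => cl j = a, ?_, ?_, ?_, ?_, ?_⟩
      · obtain ⟨j, hj⟩ := hex (¬ a.val < t)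
        exact ⟨j, by simp only [Finset.mem_filter, Finset.mem_univ, true_and]; tauto⟩
      · exact ⟨up a, by simp [hclup]⟩
      · intro h
        obtain ⟨j, hj⟩ := hex (a.val < t)
        have h0 : ¬ (j.val < t ↔ a.val < t) := by
          have := Finset.mem_univ j
          rw [← h] at this
          simpa using this
        exact h0 hj
      · intro h
        have h0 : cl z0 = a := by
          have := Finset.mem_univ z0
          rw [← h] at this
          simpa using this
        have h2 : cl z1 = a := by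
          have := Finset.mem_univ z1
          rw [← h] at this
          simpa using this
        have h3 := (hclt z0).2 (by simp only [hz0]; omega)
        have h4 := (hclt z1).1 (by rw [h2, ← h0]; exact h3)
        simp only [hz1] at h4
        omega
      · ext x
        simp only [Finset.mem_filter, Finset.mem_univ, true_and, Finset.mem_product]
        constructor
        · intro hx
          by_cases hc : (x.1.val < t ↔ x.2.val < t)
          · rw [hcol1 x hc] at hx
            exact absurd hx (by simp)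
          · rw [hcol2 x hc, Sum.inr.injEq] at hx
            refine ⟨?_, hx⟩
            rw [← hx, hclt]
            exact hc
        · rintro ⟨hx1, hx2⟩
          rw [hcol2 x (by rw [← hx2, hclt] at hx1; exact hx1), hx2]
  · -- the lines with a fixed first coordinate
    intro i
    refine ⟨insert (Sum.inl (cl i)) ((Finset.univ.filter fun a : Fin (2 * t) =>
      ¬ (i.val < t ↔ a.val < t)).map ⟨Sum.inr, Sum.inr_injective⟩), ?_, ?_⟩
    · rw [Finset.card_insert_of_notMem (by simp), Finset.card_map]
      have h2 : t ≤ (Finset.univ.filter fun a : Fin (2 * t) =>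
          ¬ (i.val < t ↔ a.val < t)).card := by
        by_cases hi : i.val < t
        · have h3 : (Finset.univ : Finset (Fin t)).map
              ⟨fun a => (⟨t + a.val, by omega⟩ : Fin (2 * t)), fun a b hab => by
                have := congrArg Fin.val hab
                ext
                simpa using this⟩ ⊆
              Finset.univ.filter fun a : Fin (2 * t) => ¬ (i.val < t ↔ a.val < t) := by
            intro a ha
            rw [Finset.mem_map] at ha
            obtain ⟨b, -, rfl⟩ := ha
            refine Finset.mem_filter.2 ⟨Finset.mem_univ _, ?_⟩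
            change ¬ (i.val < t ↔ t + b.val < t)
            omega
          have h4 := Finset.card_le_card h3
          rwa [Finset.card_map, Finset.card_univ, Fintype.card_fin] at h4
        · have h3 : (Finset.univ : Finset (Fin t)).map
              ⟨fun a => (⟨a.val, by omega⟩ : Fin (2 * t)), fun a b hab => by
                have := congrArg Fin.val hab
                ext
                simpa using this⟩ ⊆
              Finset.univ.filter fun a : Fin (2 * t) => ¬ (i.val < t ↔ a.val < t) := by
            intro a ha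
            rw [Finset.mem_map] at ha
            obtain ⟨b, -, rfl⟩ := ha
            refine Finset.mem_filter.2 ⟨Finset.mem_univ _, ?_⟩
            change ¬ (i.val < t ↔ b.val < t)
            have := b.isLt
            omega
          have h4 := Finset.card_le_card h3
          rwa [Finset.card_map, Finset.card_univ, Fintype.card_fin] at h4
      omega
    · intro s hs
      rw [Finset.mem_insert, Finset.mem_map] at hs
      rcases hs with rfl | ⟨a, ha, rfl⟩
      · obtain ⟨j, hj⟩ := hex (i.val < t)
        exact ⟨j, hcol1 (i, j) hj.symm⟩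
      · simp only [Finset.mem_filter, Finset.mem_univ, true_and] at ha
        refine ⟨up a, ?_⟩
        rw [hcol2 (i, up a) (by rw [hupt]; exact ha), hclup]
        rfl
  · -- the lines with a fixed second coordinate
    intro j
    refine ⟨insert (Sum.inr (cl j)) ((Finset.univ.filter fun a : Fin (2 * t) =>
      (j.val < t ↔ a.val < t)).map ⟨Sum.inl, Sum.inl_injective⟩), ?_, ?_⟩
    · rw [Finset.card_insert_of_notMem (by simp), Finset.card_map]
      have h2 : t ≤ (Finset.univ.filter fun a : Fin (2 * t) =>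
          (j.val < t ↔ a.val < t)).card := by
        by_cases hi : j.val < t
        · have h3 : (Finset.univ : Finset (Fin t)).map
              ⟨fun a => (⟨a.val, by omega⟩ : Fin (2 * t)), fun a b hab => by
                have := congrArg Fin.val hab
                ext
                simpa using this⟩ ⊆
              Finset.univ.filter fun a : Fin (2 * t) => (j.val < t ↔ a.val < t) := by
            intro a ha
            rw [Finset.mem_map] at ha
            obtain ⟨b, -, rfl⟩ := ha
            refine Finset.mem_filter.2 ⟨Finset.mem_univ _, ?_⟩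
            change j.val < t ↔ b.val < t
            have := b.isLt
            omega
          have h4 := Finset.card_le_card h3
          rwa [Finset.card_map, Finset.card_univ, Fintype.card_fin] at h4
        · have h3 : (Finset.univ : Finset (Fin t)).map
              ⟨fun a => (⟨t + a.val, by omega⟩ : Fin (2 * t)), fun a b hab => by
                have := congrArg Fin.val hab
                ext
                simpa using this⟩ ⊆
              Finset.univ.filter fun a : Fin (2 * t) => (j.val < t ↔ a.val < t) := by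
            intro a ha
            rw [Finset.mem_map] at ha
            obtain ⟨b, -, rfl⟩ := ha
            refine Finset.mem_filter.2 ⟨Finset.mem_univ _, ?_⟩
            change j.val < t ↔ t + b.val < t
            omega
          have h4 := Finset.card_le_card h3
          rwa [Finset.card_map, Finset.card_univ, Fintype.card_fin] at h4
      omega
    · intro s hs
      rw [Finset.mem_insert, Finset.mem_map] at hs
      rcases hs with rfl | ⟨a, ha, rfl⟩
      · obtain ⟨i, hi⟩ := hex (¬ j.val < t)
        exact ⟨i, hcol2 (i, j) (by simp only; tauto)⟩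
      · simp only [Finset.mem_filter, Finset.mem_univ, true_and] at ha
        refine ⟨up a, ?_⟩
        rw [hcol1 (up a, j) (by rw [hupt]; exact ha.symm), hclup]
        rfl

theorem isLeast {n k : ℕ} (hk : 2 ≤ k) (hn : 2 * (k - 1) ≤ n) :
    IsLeast {m : ℕ | ∃ B : Fin m → Finset (Fin n × Fin n), IsPiercingPartition n k k m B}
      (4 * (k - 1)) := by
  constructor
  · have h := upper (n := n) (t := k - 1) (by omega) hn
    rwa [Nat.sub_add_cancel (by omega : 1 ≤ k)] at h
  · rintro m ⟨B, hB⟩
    exact lower_k (by omega) hk hB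

/-- **Main theorem.** Let `k ≥ 2`. (1) Every partition of `[n]²`, `n ≥ 1`, into proper boxes with
the `k`-piercing property has at least `4 (k - 1)` parts. (2) For `n ≥ 2 (k - 1)` the least number
`p_box(n, 2, k)` of parts of such a partition is `4 (k - 1)` (and it is attained). (3) Hence
`p_box(2, k) = lim p_box(n, 2, k) = 4 (k - 1)`. (4) More generally, if each line `{i} × [n]` meets
at least `r ≥ 2` parts and each line `[n] × {j}` at least `c ≥ 2` parts, then the number `m` of the
parts satisfies `√(r - 1) + √(c - 1) ≤ √m`. -/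
theorem result :
    (∀ k : ℕ, 2 ≤ k →
      (∀ n m : ℕ, 0 < n → ∀ B : Fin m → Finset (Fin n × Fin n),
        IsPiercingPartition n k k m B → 4 * (k - 1) ≤ m) ∧
      (∀ n : ℕ, 2 * (k - 1) ≤ n →
        IsLeast {m : ℕ | ∃ B : Fin m → Finset (Fin n × Fin n), IsPiercingPartition n k k m B}
          (4 * (k - 1)) ∧ pBox n k = 4 * (k - 1)) ∧
      Filter.Tendsto (fun n => (pBox n k : ℝ)) Filter.atTop (nhds (4 * ((k : ℝ) - 1)))) ∧
    (∀ r c n m : ℕ, 2 ≤ r → 2 ≤ c → 0 < n → ∀ B : Fin m → Finset (Fin n × Fin n),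
      IsPiercingPartition n r c m B → √((r : ℝ) - 1) + √((c : ℝ) - 1) ≤ √(m : ℝ)) := by
  refine ⟨fun k hk => ⟨fun n m hn B hB => lower_k hn hk hB, fun n hn => ?_, ?_⟩,
    fun r c n m hr hc hn B hB => lower hn hr hc hB⟩
  · exact ⟨isLeast hk hn, (isLeast hk hn).csInf_eq⟩
  · apply tendsto_const_nhds.congr'
    filter_upwards [Filter.eventually_ge_atTop (2 * (k - 1))] with n hn
    have h : pBox n k = 4 * (k - 1) := (isLeast hk hn).csInf_eq
    rw [h, Nat.cast_mul, Nat.cast_sub (by omega)]
    push_cast
    ring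

end Pool.Agent.Results.MP_21d1af_co.BoxPiercing
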